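import Pool.Agent.P8H93.TD.Mean

/-!
# Package TD/AVG (for helper67)
-/

set_option autoImplicit false

open Set Filter Topology

namespace Pool.Agent.P8H93.TD

open Pool.Agent.P8H67.TD
open Pool.Agent.N520.SV (Sx Chain face bdry norm1)

theorem face_vtx {n : ℕ} (i : Fin (n + 2)) (l : Fin (n + 1)) :
    face i (vtx l) = vtx (i.succAbove l) :=
  stdSimplex.map_vertex (S := ℝ) i.succAbove l

section

variable {E Q Γ : Type} [NormedAddCommGroup E] [NormedSpace ℝ E] [NormedAddCommGroup Q]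
  [NormedSpace ℝ Q] [Group Γ] {hol : Γ →* (E ≃ᵃ[ℝ] E)} {ρ : Γ →* (Q ≃ᵃ[ℝ] Q)} {π : E →L[ℝ] Q}
  {Ω : Set E}

/-- the tuples over `u` -/
def Ov (π : E →L[ℝ] Q) (Ω : Set E) {n : ℕ} (u : Fin n → Q) : Set (Fin n → E) :=
  {x | ∀ i, x i ∈ Ω ∧ π (x i) = u i}

theorem mn_of {I : ∀ n, (Fin n → Q) → ((Fin n → E) → ℝ) → ℝ} (hI : ItOf E Q Γ hol ρ π Ω I) {n : ℕ}
    {u : Fin n → Q} (hu : ∀ i, u i ∈ π '' Ω) : Mn (Ov π Ω u) (I n u) := by
  obtain ⟨h1, h2, h3, h4, -⟩ := hI.1 n u hu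
  exact ⟨h1, h2, h3, h4⟩

theorem hol_inv_mem (hS : Sys E Q Γ hol ρ π Ω) (γ : Γ) {p : E} : hol γ p ∈ Ω ↔ p ∈ Ω := by
  refine ⟨fun h => ?_, fun h => hS.inv γ p h⟩
  have h1 := hS.inv γ⁻¹ _ h
  rw [map_inv] at h1
  rwa [show (hol γ)⁻¹ (hol γ p) = p from (hol γ).symm_apply_apply p] at h1

theorem ov_hol (hS : Sys E Q Γ hol ρ π Ω) (γ : Γ) {n : ℕ} (u : Fin n → Q) (x : Fin n → E) :
    (fun i => hol γ (x i)) ∈ Ov π Ω (fun i => ρ γ (u i)) ↔ x ∈ Ov π Ω u := by
  refine forall_congr' fun i => ?_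
  rw [hol_inv_mem hS, hS.equi, (ρ γ).injective.eq_iff]

theorem ov_succ {n : ℕ} {u : Fin (n + 1) → Q} {x : Fin (n + 1) → E} (hx : x ∈ Ov π Ω u)
    (i : Fin (n + 1)) : (fun a => x (i.succAbove a)) ∈ Ov π Ω (fun a => u (i.succAbove a)) :=
  fun _ => hx _

/-- admissible tuples -/
theorem adm_iff {n : ℕ} {s : C(Sx n, E)} {x : Fin (n + 1) → E} :
    Adm π Ω s x ↔ x ∈ Ov π Ω (fun i => π (s (vtx i))) :=
  ⟨fun h i => ⟨h.1 i, h.2 i⟩, fun h => ⟨fun i => (h i).1, fun i => (h i).2⟩⟩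

open Classical in
/-- the function of the tuples over `u` -/
noncomputable def cut (π : E →L[ℝ] Q) (Ω : Set E) {n : ℕ} (u : Fin n → Q) (f : (Fin n → E) → ℝ) :
    (Fin n → E) → ℝ := fun x => if x ∈ Ov π Ω u then f x else 0

theorem cut_mem {n : ℕ} {u : Fin n → Q} {f : (Fin n → E) → ℝ} {x : Fin n → E} (h : x ∈ Ov π Ω u) :
    cut π Ω u f x = f x := if_pos h

theorem bd_cut {n : ℕ} {u : Fin n → Q} {f : (Fin n → E) → ℝ} {C : ℝ}
    (h : ∀ x ∈ Ov π Ω u, |f x| ≤ C) : Bd (cut π Ω u f) := by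
  refine ⟨|C|, fun x => ?_⟩
  unfold cut
  split_ifs with hx
  · exact (h x hx).trans (le_abs_self C)
  · rw [abs_zero]
    exact abs_nonneg C

/-- the mean at a translated tuple -/
theorem mean_hol (hS : Sys E Q Γ hol ρ π Ω) {I : ∀ n, (Fin n → Q) → ((Fin n → E) → ℝ) → ℝ}
    (hI : ItOf E Q Γ hol ρ π Ω I) (γ : Γ) {n : ℕ} {u u' : Fin n → Q} (hu : ∀ i, u i ∈ π '' Ω)
    (huu : ∀ i, u' i = ρ γ (u i)) {f f' : (Fin n → E) → ℝ} {C : ℝ} (hf : ∀ x ∈ Ov π Ω u, |f x| ≤ C)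
    (h : ∀ x ∈ Ov π Ω u, f' (fun i => hol γ (x i)) = f x) :
    I n u' (cut π Ω u' f') = I n u (cut π Ω u f) := by
  obtain rfl : u' = fun i => ρ γ (u i) := funext huu
  have hb : Bd (cut π Ω (fun i => ρ γ (u i)) f') := by
    refine bd_cut (C := C) fun x hx => ?_
    have h1 : x = fun i => hol γ (hol γ⁻¹ (x i)) := by
      funext i
      rw [map_inv]
      exact ((hol γ).apply_symm_apply (x i)).symm
    rw [h1] at hx ⊢
    rw [ov_hol hS] at hx
    rw [h _ hx]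
    exact hf _ hx
  rw [(hI.1 n u hu).2.2.2.2 γ _ hb]
  congr 1
  funext x
  unfold cut
  by_cases hx : x ∈ Ov π Ω u
  · rw [if_pos hx, if_pos ((ov_hol hS γ u x).2 hx), h x hx]
  · rw [if_neg hx, if_neg (mt (ov_hol hS γ u x).1 hx)]

end

theorem avg : S_AVG := by
  intro hSTR hPRI hFIELD hIM E Q Γ _ _ _ _ _ _ _ hol ρ π Ω hS hfree hP k φ C h1 h2 h3
  obtain ⟨Str, s1, s2, s3, s4⟩ := hSTR E Q Γ hol ρ π Ω hS hfree
  obtain ⟨pr, p1, p2, p3, p4⟩ := hPRI E
  obtain ⟨I, hI⟩ := hIM E Q Γ hol ρ π Ω hS (hFIELD E Q Γ hol ρ π Ω hS hP)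
  -- the section
  obtain ⟨σ0, hσ0⟩ : ∃ σ0 : C(Q, E), ∀ q, π (σ0 q) = q := by
    obtain ⟨g, hg⟩ := (π : E →ₗ[ℝ] Q).exists_rightInverse_of_surjective (LinearMap.range_eq_top.2 hS.surj)
    exact ⟨⟨g, g.continuous_of_finiteDimensional⟩, fun q => LinearMap.congr_fun hg q⟩
  have hsat : ∀ {p : E}, π p ∈ π '' Ω → p ∈ Ω := by
    rintro p ⟨q, hq, hqp⟩
    exact hS.sat q hq p hqp.symm
  have hadm : ∀ {n : ℕ} {s : C(Sx n, E)} {u : C(Sx n, Q)} {x : Fin (n + 1) → E}, (∀ t, u t = π (s t)) →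
      x ∈ Ov π Ω (fun i => u (vtx i)) → Adm π Ω s x := by
    intro n s u x hsu hx
    rw [adm_iff]
    simpa only [hsu] using hx
  have hStr : ∀ {n : ℕ} {s : C(Sx n, E)} {x : Fin (n + 1) → E}, (∀ t, π (s t) ∈ π '' Ω) → Adm π Ω s x →
      range (Str n s x) ⊆ Ω := by
    rintro n s x hs hx _ ⟨t, rfl⟩
    apply hsat
    rw [s1 n s x t hx]
    exact hs t
  have hlift : ∀ {n : ℕ} (u : C(Sx n, Q)) (t : Sx n), π ((σ0.comp u) t) = u t := fun u t => hσ0 _
  -- the first function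
  let A : C(Sx (k + 1), Q) → (Fin (k + 2) → E) → ℝ := fun u x => φ (Str (k + 1) (σ0.comp u) x)
  have hA : ∀ u : C(Sx (k + 1), Q), (∀ t, u t ∈ π '' Ω) → ∀ x ∈ Ov π Ω (fun i => u (vtx i)), |A u x| ≤ C := by
    intro u hu x hx
    refine h1 _ (hStr (fun t => ?_) (hadm (fun t => (hlift u t).symm) hx))
    rw [hlift]
    exact hu t
  -- the second function
  let H : C(Sx k, E) → (Fin (k + 1) → E) → ℝ := fun s x => Ph φ (pr k s (Str k s x))
  have hprΩ : ∀ {n : ℕ} {s : C(Sx n, E)} {x : Fin (n + 1) → E}, range s ⊆ Ω → Adm π Ω s x →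
      ∀ τ ∈ (pr n s (Str n s x)).support, range τ ⊆ Ω := by
    rintro n s x hs hx τ hτ _ ⟨t, rfl⟩
    obtain ⟨q, r, h0, h1', hq⟩ := p2 n _ _ τ hτ t
    refine hS.sat (s q) (hs ⟨q, rfl⟩) _ ?_
    rw [hq, map_add, map_smul, map_smul, s1 n s x q hx, ← add_smul, sub_add_cancel, one_smul]
  obtain ⟨Cp, hCp⟩ := p3 k
  have hn : ∀ c : Chain (k + 1) E, 0 ≤ norm1 c := fun c => Finset.sum_nonneg fun _ _ => abs_nonneg _
  have hH : ∀ s : C(Sx k, E), range s ⊆ Ω → ∀ x ∈ Ov π Ω (fun i => π (s (vtx i))), |H s x| ≤ Cp * |C| := by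
    intro s hs x hx
    refine (Ph_bound h1 (hprΩ hs (adm_iff.2 hx))).trans ?_
    exact (mul_le_mul_of_nonneg_left (le_abs_self C) (hn _)).trans
      (mul_le_mul_of_nonneg_right (hCp _ _) (abs_nonneg _))
  refine ⟨fun u => I (k + 2) (fun i => u (vtx i)) (cut π Ω (fun i => u (vtx i)) (A u)),
    fun s => - I (k + 1) (fun i => π (s (vtx i))) (cut π Ω (fun i => π (s (vtx i))) (H s)), ?_, ?_, ?_, ?_⟩
  · -- invariance of `β`
    intro γ u u' hu huu
    have hu' : ∀ t, u t ∈ π '' Ω := fun t => hu ⟨t, rfl⟩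
    refine mean_hol hS hI γ (fun i => hu' _) (fun i => huu _) (hA u hu') fun x hx => ?_
    have hx1 := hadm (s := σ0.comp u) (fun t => (hlift u t).symm) hx
    obtain ⟨gc, hgc⟩ : ∃ gc : C(E, E), ∀ p, gc p = hol γ p :=
      ⟨⟨hol γ, (hol γ).toAffineMap.continuous_of_finiteDimensional⟩, fun _ => rfl⟩
    have hx2 : Adm π Ω (gc.comp (σ0.comp u)) fun i => hol γ (x i) := by
      rw [adm_iff]
      have h := (ov_hol hS γ _ x).2 hx
      convert h using 2
      funext i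
      rw [ContinuousMap.comp_apply, hgc, hS.equi, hlift]
    have e1 : Str (k + 1) (σ0.comp u') (fun i => hol γ (x i)) =
        Str (k + 1) (gc.comp (σ0.comp u)) (fun i => hol γ (x i)) := by
      refine (s2 (k + 1) _ _ _ hx2 fun t => ?_).symm
      rw [hlift, ContinuousMap.comp_apply, hgc, hS.equi, hlift, huu]
    show φ (Str (k + 1) (σ0.comp u') fun i => hol γ (x i)) = φ (Str (k + 1) (σ0.comp u) x)
    rw [e1]
    refine h2 γ _ _ (hStr (fun t => ?_) hx1) fun t => ?_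
    · rw [hlift]
      exact hu' t
    · exact s4 (k + 1) _ _ x γ hx1 (fun t => by rw [ContinuousMap.comp_apply, hgc]) t
  · -- `β` is a cocycle
    intro τ hτ
    have hτ' : ∀ t, τ t ∈ π '' Ω := fun t => hτ ⟨t, rfl⟩
    have hM : Mn (Ov π Ω fun i => τ (vtx i)) (I (k + 3) fun i => τ (vtx i)) :=
      mn_of hI fun i => hτ' _
    have hb : ∀ i : Fin (k + 3), Bd (cut π Ω (fun l => τ (face i (vtx l))) (A (τ.comp (face i)))) :=
      fun i => bd_cut (hA (τ.comp (face i)) fun t => hτ' _)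
    have e1 : ∀ i : Fin (k + 3), I (k + 2) (fun l => (τ.comp (face i)) (vtx l))
        (cut π Ω (fun l => (τ.comp (face i)) (vtx l)) (A (τ.comp (face i)))) =
        I (k + 3) (fun i => τ (vtx i)) (fun x => cut π Ω (fun l => τ (face i (vtx l)))
          (A (τ.comp (face i))) fun a => x (i.succAbove a)) := by
      intro i
      rw [hI.2 (k + 2) (fun i => τ (vtx i)) (fun i => hτ' _) i _ (hb i)]
      simp only [ContinuousMap.comp_apply, face_vtx]
    have hb2 : ∀ i : Fin (k + 3), Bd (fun x : Fin (k + 3) → E => cut π Ω (fun l => τ (face i (vtx l)))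
          (A (τ.comp (face i))) fun a => x (i.succAbove a)) := by
      intro i
      obtain ⟨D, hD⟩ := hb i
      exact ⟨D, fun x => hD _⟩
    simp only [e1]
    rw [← hM.sum Finset.univ (fun i : Fin (k + 3) => (-1 : ℝ) ^ (i : ℕ)) fun i _ => hb2 i]
    refine hM.zero_of (bd_sum _ _ fun i _ => hb2 i) fun x hx => ?_
    have hx1 := hadm (s := σ0.comp τ) (fun t => (hlift τ t).symm) hx
    rw [← h3 (Str (k + 2) (σ0.comp τ) x) (hStr (fun t => by rw [hlift]; exact hτ' t) hx1)]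
    refine Finset.sum_congr rfl fun i _ => ?_
    have hx2 : (fun a => x (i.succAbove a)) ∈ Ov π Ω (fun l => τ (face i (vtx l))) := by
      have := ov_succ hx i
      simpa only [face_vtx] using this
    rw [cut_mem hx2, s3 (k + 1) (σ0.comp τ) x i hx1]
    rfl
  · -- invariance of `η`
    intro γ s s' hs hss
    have hss' : ∀ t, s' t = hol γ (s t) := hss
    refine congrArg Neg.neg (mean_hol hS hI γ (fun i => ⟨_, hs ⟨_, rfl⟩, rfl⟩)
      (fun i => by rw [hss, hS.equi]) (hH s hs) fun x hx => ?_)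
    have hx1 : Adm π Ω s x := adm_iff.2 hx
    obtain ⟨gc, hgc⟩ : ∃ gc : C(E, E), ∀ p, gc p = hol γ p :=
      ⟨⟨hol γ, (hol γ).toAffineMap.continuous_of_finiteDimensional⟩, fun _ => rfl⟩
    have e1 : s' = gc.comp s := by
      ext t
      rw [ContinuousMap.comp_apply, hgc, hss]
    have e2 : Str k s' (fun i => hol γ (x i)) = gc.comp (Str k s x) := by
      ext t
      rw [ContinuousMap.comp_apply, hgc]
      exact s4 k s s' x γ hx1 hss t
    show Ph φ (pr k s' (Str k s' fun i => hol γ (x i))) = Ph φ (pr k s (Str k s x))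
    rw [e2, e1, p4 (hol γ) gc hgc]
    refine Ph_map _ fun τ hτ => ?_
    exact h2 γ _ _ (hprΩ hs hx1 τ hτ) fun t => by rw [ContinuousMap.comp_apply, hgc]
  · -- the homotopy
    intro s u hs hu
    have hu' : ∀ t, u t ∈ π '' Ω := fun t => ⟨s t, hs ⟨t, rfl⟩, (hu t).symm⟩
    have hM : Mn (Ov π Ω fun i => u (vtx i)) (I (k + 2) fun i => u (vtx i)) :=
      mn_of hI fun i => hu' _
    have hfs : ∀ i : Fin (k + 2), range (s.comp (face i)) ⊆ Ω := by
      rintro i _ ⟨t, rfl⟩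
      exact hs ⟨_, rfl⟩
    have hb : ∀ i : Fin (k + 2), Bd (cut π Ω (fun l => π (s (face i (vtx l)))) (H (s.comp (face i)))) :=
      fun i => bd_cut (hH (s.comp (face i)) (hfs i))
    have e1 : ∀ i : Fin (k + 2), I (k + 1) (fun l => π ((s.comp (face i)) (vtx l)))
        (cut π Ω (fun l => π ((s.comp (face i)) (vtx l))) (H (s.comp (face i)))) =
        I (k + 2) (fun i => u (vtx i)) (fun x => cut π Ω (fun l => π (s (face i (vtx l))))
          (H (s.comp (face i))) fun a => x (i.succAbove a)) := by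
      intro i
      rw [hI.2 (k + 1) (fun i => u (vtx i)) (fun i => hu' _) i _ (hb i)]
      simp only [ContinuousMap.comp_apply, face_vtx, hu]
    have hb2 : ∀ i : Fin (k + 2), Bd (fun x : Fin (k + 2) → E => cut π Ω (fun l => π (s (face i (vtx l))))
          (H (s.comp (face i))) fun a => x (i.succAbove a)) := by
      intro i
      obtain ⟨D, hD⟩ := hb i
      exact ⟨D, fun x => hD _⟩
    simp only [e1, mul_neg, Finset.sum_neg_distrib]
    rw [← hM.sum Finset.univ (fun i : Fin (k + 2) => (-1 : ℝ) ^ (i : ℕ)) fun i _ => hb2 i]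
    have hbA : Bd (cut π Ω (fun i => u (vtx i)) (A u)) := bd_cut (hA u hu')
    have key : I (k + 2) (fun i => u (vtx i)) (cut π Ω (fun i => u (vtx i)) (A u)) =
        I (k + 2) (fun i => u (vtx i)) (fun x => φ s + ∑ i : Fin (k + 2), (-1 : ℝ) ^ (i : ℕ) *
          cut π Ω (fun l => π (s (face i (vtx l)))) (H (s.comp (face i))) fun a => x (i.succAbove a)) := by
      refine hM.congr_of hbA (bd_add (bd_const _) (bd_sum _ _ fun i _ => hb2 i)) fun x hx => ?_
      rw [cut_mem hx]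
      have hx1 : Adm π Ω s x := hadm hu hx
      have e2 : Str (k + 1) (σ0.comp u) x = Str (k + 1) s x := by
        refine (s2 (k + 1) _ _ _ hx1 fun t => ?_).symm
        rw [hlift, hu]
      have e3 := Ph_bdry h3 (hprΩ hs hx1)
      rw [p1, map_sub, map_sub, Ph_single, Ph_single, map_sum] at e3
      show φ (Str (k + 1) (σ0.comp u) x) = _
      rw [e2]
      have e4 : ∑ i : Fin (k + 2), Ph φ (((-1 : ℝ) ^ (i : ℕ)) • pr k (s.comp (face i))
          ((Str (k + 1) s x).comp (face i))) = ∑ i : Fin (k + 2), (-1 : ℝ) ^ (i : ℕ) *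
          cut π Ω (fun l => π (s (face i (vtx l)))) (H (s.comp (face i))) fun a => x (i.succAbove a) := by
        refine Finset.sum_congr rfl fun i _ => ?_
        have hx2 : (fun a => x (i.succAbove a)) ∈ Ov π Ω (fun l => π (s (face i (vtx l)))) := by
          have := ov_succ hx i
          simpa only [face_vtx, hu] using this
        rw [cut_mem hx2, map_smul, smul_eq_mul, s3 k s x i hx1]
      rw [e4] at e3
      linarith
    rw [key, hM.add _ _ (bd_const _) (bd_sum _ _ fun i _ => hb2 i), hM.const]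
    ring

end Pool.Agent.P8H93.TD
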