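import Pool.Agent.P8H67.TD.Stm

/-!
# Package TD/PI (for helper67)
-/

set_option autoImplicit false

open Set Filter Topology

namespace Pool.Agent.P8H93.TD

open Pool.Agent.P8H67.TD Pool.Agent.H904R2

theorem pi : S_PI := by
  intro Z _ V a b hab j hV
  have hm : (a + b) / 2 ∈ Ioo a b := ⟨by linarith, by linarith⟩
  have hconv : ∀ x ∈ Ioo a b, ∀ t : unitInterval, (1 - (t : ℝ)) * ((a + b) / 2) + t * x ∈ Ioo a b := by
    intro x hx t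
    have := (convex_Ioo a b) hm hx (sub_nonneg.2 t.2.2) t.2.1 (by ring)
    simpa [smul_eq_mul] using this
  let f : C((Ioo a b ×ˢ V : Set (ℝ × Z)), V) :=
    ⟨fun p => ⟨p.1.2, p.2.2⟩, by fun_prop⟩
  let g : C(V, (Ioo a b ×ˢ V : Set (ℝ × Z))) :=
    ⟨fun v => ⟨((a + b) / 2, v.1), ⟨hm, v.2⟩⟩, by fun_prop⟩
  let H : C((Ioo a b ×ˢ V : Set (ℝ × Z)) × unitInterval, (Ioo a b ×ˢ V : Set (ℝ × Z))) :=
    ⟨fun q => ⟨((1 - (q.2 : ℝ)) * ((a + b) / 2) + q.2 * q.1.1.1, q.1.1.2),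
      ⟨hconv _ q.1.2.1 _, q.1.2.2⟩⟩, by fun_prop⟩
  refine MV.racyc_of_htpy f g H ?_ ?_ (j + 1) hV
  · ext p <;> simp [f, g, H, Pool.Agent.Helper922.HB.Sc.slice]
  · ext p <;> simp [f, g, H, Pool.Agent.Helper922.HB.Sc.slice]

end Pool.Agent.P8H93.TD
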