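import Pool.Agent.P8H67.TD.Stm

/-!
# Package TD/AVG (for helper67): means
-/

set_option autoImplicit false

open Set Filter Topology

namespace Pool.Agent.P8H93.TD

open Pool.Agent.P8H67.TD

section bd

variable {A : Type}

theorem bd_add {f g : A → ℝ} (hf : Bd f) (hg : Bd g) : Bd fun x => f x + g x := by
  obtain ⟨C, hC⟩ := hf
  obtain ⟨D, hD⟩ := hg
  exact ⟨C + D, fun x => (abs_add_le _ _).trans (add_le_add (hC x) (hD x))⟩

theorem bd_smul (c : ℝ) {f : A → ℝ} (hf : Bd f) : Bd fun x => c * f x := by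
  obtain ⟨C, hC⟩ := hf
  exact ⟨|c| * C, fun x => by rw [abs_mul]; exact mul_le_mul_of_nonneg_left (hC x) (abs_nonneg c)⟩

theorem bd_const (c : ℝ) : Bd fun _ : A => c := ⟨|c|, fun _ => le_rfl⟩

theorem bd_sum {ι : Type*} (s : Finset ι) (c : ι → ℝ) {F : ι → A → ℝ} (h : ∀ i ∈ s, Bd (F i)) :
    Bd fun x => ∑ i ∈ s, c i * F i x := by
  classical
  induction s using Finset.induction_on with
  | empty => simpa using bd_const (A := A) 0
  | insert i s hi ih =>
    simp only [Finset.sum_insert hi]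
    exact bd_add (bd_smul _ (h i (Finset.mem_insert_self _ _)))
      (ih fun j hj => h j (Finset.mem_insert_of_mem hj))

end bd

/-- a mean on the bounded functions, carried by `S` -/
structure Mn {A : Type} (S : Set A) (J : (A → ℝ) → ℝ) : Prop where
  add : ∀ f g : A → ℝ, Bd f → Bd g → J (fun x => f x + g x) = J f + J g
  smul : ∀ (c : ℝ) (f : A → ℝ), Bd f → J (fun x => c * f x) = c * J f
  one : J (fun _ => 1) = 1
  le : ∀ (c : ℝ) (f : A → ℝ), Bd f → (∀ x ∈ S, f x ≤ c) → J f ≤ c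

namespace Mn

variable {A : Type} {S : Set A} {J : (A → ℝ) → ℝ}

theorem zero_of (h : Mn S J) {f : A → ℝ} (hf : Bd f) (h0 : ∀ x ∈ S, f x = 0) : J f = 0 := by
  have h1 : J f ≤ 0 := h.le 0 f hf fun x hx => (h0 x hx).le
  have h2 : J (fun x => (-1) * f x) ≤ 0 := h.le 0 _ (bd_smul _ hf) fun x hx => by
    rw [h0 x hx, mul_zero]
  rw [h.smul _ _ hf] at h2
  linarith

theorem congr_of (h : Mn S J) {f g : A → ℝ} (hf : Bd f) (hg : Bd g) (h0 : ∀ x ∈ S, f x = g x) :
    J f = J g := by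
  have h1 : J (fun x => f x + (-1) * g x) = 0 :=
    h.zero_of (bd_add hf (bd_smul _ hg)) fun x hx => by rw [h0 x hx]; ring
  rw [h.add _ _ hf (bd_smul _ hg), h.smul _ _ hg] at h1
  linarith

theorem sum (h : Mn S J) {ι : Type*} (s : Finset ι) (c : ι → ℝ) {F : ι → A → ℝ}
    (hF : ∀ i ∈ s, Bd (F i)) : J (fun x => ∑ i ∈ s, c i * F i x) = ∑ i ∈ s, c i * J (F i) := by
  classical
  induction s using Finset.induction_on with
  | empty =>
    simp only [Finset.sum_empty]
    exact h.zero_of (bd_const 0) fun _ _ => rfl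
  | insert i s hi ih =>
    simp only [Finset.sum_insert hi]
    rw [h.add _ _ (bd_smul _ (hF i (Finset.mem_insert_self _ _)))
      (bd_sum s c fun j hj => hF j (Finset.mem_insert_of_mem hj)),
      h.smul _ _ (hF i (Finset.mem_insert_self _ _)),
      ih fun j hj => hF j (Finset.mem_insert_of_mem hj)]

theorem const (h : Mn S J) (c : ℝ) : J (fun _ => c) = c := by
  have h1 := h.smul c (fun _ => 1) (bd_const 1)
  rw [h.one, mul_one] at h1
  exact h1

end Mn

section chain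

open Pool.Agent.N520.SV

variable {E : Type} [NormedAddCommGroup E] {k : ℕ}

/-- the value of a cochain at a chain -/
noncomputable def Ph (φ : C(Sx k, E) → ℝ) : Chain k E →ₗ[ℝ] ℝ := Finsupp.linearCombination ℝ φ

theorem Ph_single (φ : C(Sx k, E) → ℝ) (σ : C(Sx k, E)) : Ph φ (Finsupp.single σ 1) = φ σ := by
  rw [Ph, Finsupp.linearCombination_single, one_smul]

theorem Ph_bound {φ : C(Sx k, E) → ℝ} {Ω : Set E} {C : ℝ}
    (hφ : ∀ s : C(Sx k, E), range s ⊆ Ω → |φ s| ≤ C) {c : Chain k E}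
    (hc : ∀ τ ∈ c.support, range τ ⊆ Ω) : |Ph φ c| ≤ norm1 c * C := by
  rw [Ph, Finsupp.linearCombination_apply, Finsupp.sum, norm1, Finset.sum_mul]
  refine (Finset.abs_sum_le_sum_abs _ _).trans (Finset.sum_le_sum fun τ hτ => ?_)
  rw [smul_eq_mul, abs_mul]
  exact mul_le_mul_of_nonneg_left (hφ τ (hc τ hτ)) (abs_nonneg _)

theorem Ph_bdry {φ : C(Sx (k + 1), E) → ℝ} {Ω : Set E}
    (h3 : ∀ τ : C(Sx (k + 2), E), range τ ⊆ Ω →
      ∑ i : Fin (k + 3), (-1 : ℝ) ^ (i : ℕ) * φ (τ.comp (face i)) = 0) {c : Chain (k + 2) E}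
    (hc : ∀ τ ∈ c.support, range τ ⊆ Ω) : Ph φ (bdry (k + 1) c) = 0 := by
  rw [bdry, Finsupp.linearCombination_apply, Finsupp.sum, map_sum]
  refine Finset.sum_eq_zero fun τ hτ => ?_
  rw [map_smul, map_sum]
  have : ∑ i : Fin (k + 1 + 2), Ph φ (((-1 : ℝ) ^ (i : ℕ)) • Finsupp.single (τ.comp (face i)) 1) = 0 := by
    rw [← h3 τ (hc τ hτ)]
    refine Finset.sum_congr rfl fun i _ => ?_
    rw [map_smul, Ph_single, smul_eq_mul]
  rw [this, smul_zero]

theorem Ph_map {φ : C(Sx k, E) → ℝ} {c : Chain k E} (F : C(Sx k, E) → C(Sx k, E))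
    (h : ∀ τ ∈ c.support, φ (F τ) = φ τ) : Ph φ (Finsupp.mapDomain F c) = Ph φ c := by
  rw [Ph, Finsupp.linearCombination_mapDomain, Finsupp.linearCombination_apply,
    Finsupp.linearCombination_apply]
  refine Finsupp.sum_congr fun τ hτ => ?_
  rw [Function.comp_apply, h τ hτ]

end chain

end Pool.Agent.P8H93.TD
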